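import Mathlib
import Pool.Agent.Helper10.GWA.GCard

/-!
# TU project, module PHI1 (written by helper18 for helper66)
-/

namespace GWA

namespace Phi1

open Classical

theorem card_units_prime_pow (p : GaussianInt) (hp : Prime p) (i : ℕ) (hi : i ≠ 0) :
    (Nat.card (GaussianInt ⧸ Ideal.span {p ^ i})ˣ : ℝ) =
      (p ^ i).norm.natAbs * (1 - 1 / (p.norm.natAbs : ℝ)) := by
  set I : Ideal GaussianInt := Ideal.span {p ^ i} with hI
  set J : Ideal GaussianInt := Ideal.span {p} with hJ
  have hpi : p ^ i ≠ 0 := pow_ne_zero i hp.ne_zero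
  have hfin : Finite (GaussianInt ⧸ I) := finite_quot hpi
  have hfinJ : Finite (GaussianInt ⧸ J) := finite_quot hp.ne_zero
  have hIJ : I ≤ J := by
    rw [hI, hJ, Ideal.span_singleton_le_span_singleton]
    exact dvd_pow_self p hi
  set f : (GaussianInt ⧸ I) →+* (GaussianInt ⧸ J) := Ideal.Quotient.factor hIJ with hf
  have hfs : Function.Surjective f := Ideal.Quotient.factor_surjective hIJ
  have hJm : J.IsMaximal := by
    rw [hJ]
    exact PrincipalIdealRing.isMaximal_of_irreducible hp.irreducible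
  -- units
  have hunit : ∀ x : GaussianInt ⧸ I, IsUnit x ↔ f x ≠ 0 := by
    intro x
    constructor
    · intro hx h0
      have h1 := hx.map f
      rw [h0] at h1
      have : Nontrivial (GaussianInt ⧸ J) := Ideal.Quotient.nontrivial_iff.2 hJm.ne_top
      exact not_isUnit_zero h1
    · intro hx
      obtain ⟨a, rfl⟩ := Ideal.Quotient.mk_surjective x
      have ha : ¬ p ∣ a := by
        intro hpa
        apply hx
        rw [hf, Ideal.Quotient.factor_mk]
        rw [Ideal.Quotient.eq_zero_iff_mem, hJ, Ideal.mem_span_singleton]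
        exact hpa
      have hcop : IsCoprime a (p ^ i) := by
        apply IsCoprime.pow_right
        exact ((hp.irreducible.coprime_iff_not_dvd).2 ha).symm
      obtain ⟨u, v, huv⟩ := hcop
      refine IsUnit.of_mul_eq_one (Ideal.Quotient.mk I u) ?_
      rw [← map_mul, ← map_one (Ideal.Quotient.mk I), Ideal.Quotient.eq, hI,
        Ideal.mem_span_singleton]
      refine ⟨-v, ?_⟩
      linear_combination huv
  -- counting
  have hcard : Nat.card (GaussianInt ⧸ I) = Nat.card (RingHom.ker f) * Nat.card (GaussianInt ⧸ J) := by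
    have h1 := AddSubgroup.card_eq_card_quotient_mul_card_addSubgroup (f.toAddMonoidHom.ker)
    have h2 : Nat.card ((GaussianInt ⧸ I) ⧸ f.toAddMonoidHom.ker) = Nat.card (GaussianInt ⧸ J) :=
      Nat.card_congr (QuotientAddGroup.quotientKerEquivOfSurjective f.toAddMonoidHom hfs).toEquiv
    rw [h1, h2, mul_comm]
    rfl
  have hsum : Nat.card (GaussianInt ⧸ I) =
      Nat.card (GaussianInt ⧸ I)ˣ + Nat.card (RingHom.ker f) := by
    have e1 : (GaussianInt ⧸ I)ˣ ≃ {x : GaussianInt ⧸ I // IsUnit x} :=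
      { toFun := fun u => ⟨u, u.isUnit⟩
        invFun := fun x => x.2.unit
        left_inv := fun u => by ext; rfl
        right_inv := fun x => by ext; rfl }
    have e2 : RingHom.ker f ≃ {x : GaussianInt ⧸ I // ¬ IsUnit x} :=
      Equiv.subtypeEquivRight (fun x => by
        rw [RingHom.mem_ker, hunit, not_not])
    rw [Nat.card_congr e1, Nat.card_congr e2, ← Nat.card_sum]
    exact Nat.card_congr (Equiv.sumCompl _).symm
  have hN : Nat.card (GaussianInt ⧸ I) = (p ^ i).norm.natAbs := card_quot _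
  have hNp : Nat.card (GaussianInt ⧸ J) = p.norm.natAbs := card_quot _
  have hNp0 : (p.norm.natAbs : ℝ) ≠ 0 := by
    have := GaussianInt.norm_pos.2 hp.ne_zero
    have h2 : p.norm.natAbs ≠ 0 := by omega
    exact_mod_cast h2
  rw [← hN, ← hNp]
  rw [← hNp] at hNp0
  have h3 : (Nat.card (GaussianInt ⧸ I) : ℝ) =
      Nat.card (RingHom.ker f) * Nat.card (GaussianInt ⧸ J) := by exact_mod_cast hcard
  have h4 : (Nat.card (GaussianInt ⧸ I) : ℝ) =
      Nat.card (GaussianInt ⧸ I)ˣ + Nat.card (RingHom.ker f) := by exact_mod_cast hsum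
  have h5 : (Nat.card (GaussianInt ⧸ I)ˣ : ℝ) =
      Nat.card (GaussianInt ⧸ I) - Nat.card (RingHom.ker f) := by linarith
  rw [h5, mul_sub, mul_one]
  congr 1
  rw [h3]
  field_simp

theorem units_count' (n : GaussianInt) : n ≠ 0 → ∃ s : Finset GaussianInt,
    (∀ l ∈ s, Prime l ∧ l ∣ n) ∧ (∀ l ∈ s, ∀ l' ∈ s, Associated l l' → l = l') ∧
    (Nat.card (GaussianInt ⧸ Ideal.span {n})ˣ : ℝ) =
      n.norm.natAbs * ∏ l ∈ s, (1 - 1 / (l.norm.natAbs : ℝ)) := by
  have hU : ∀ x : GaussianInt, IsUnit x → ∃ s : Finset GaussianInt,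
    (∀ l ∈ s, Prime l ∧ l ∣ x) ∧ (∀ l ∈ s, ∀ l' ∈ s, Associated l l' → l = l') ∧
    (Nat.card (GaussianInt ⧸ Ideal.span {x})ˣ : ℝ) =
      x.norm.natAbs * ∏ l ∈ s, (1 - 1 / (l.norm.natAbs : ℝ)) := by
    intro x hx
    refine ⟨∅, by simp, by simp, ?_⟩
    have h1 : Nat.card (GaussianInt ⧸ Ideal.span {x}) = 1 := by
      rw [card_quot]
      exact Zsqrtd.norm_eq_one_iff.2 hx
    have h2 : x.norm.natAbs = 1 := Zsqrtd.norm_eq_one_iff.2 hx
    have h3 := (Nat.card_eq_one_iff_unique.1 h1)
    have : Subsingleton (GaussianInt ⧸ Ideal.span {x}) := h3.1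
    have h4 : Nat.card (GaussianInt ⧸ Ideal.span {x})ˣ = 1 := Nat.card_unique
    rw [h4, h2]
    simp
  refine UniqueFactorizationMonoid.induction_on_coprime n (fun h => (h rfl).elim) ?_ ?_ ?_
  · intro x hx _
    exact hU x hx
  · intro p i hp hpi
    by_cases hi : i = 0
    · rw [hi, pow_zero]
      exact hU 1 isUnit_one
    · refine ⟨{p}, ?_, ?_, ?_⟩
      · intro l hl
        rw [Finset.mem_singleton] at hl
        rw [hl]
        exact ⟨hp, dvd_pow_self p hi⟩
      · intro l hl l' hl' _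
        rw [Finset.mem_singleton] at hl hl'
        rw [hl, hl']
      · rw [Finset.prod_singleton]
        exact card_units_prime_pow p hp i hi
  · intro x y hxy hx hy hne
    have hx0 : x ≠ 0 := left_ne_zero_of_mul hne
    have hy0 : y ≠ 0 := right_ne_zero_of_mul hne
    obtain ⟨s, hs1, hs2, hs3⟩ := hx hx0
    obtain ⟨t, ht1, ht2, ht3⟩ := hy hy0
    have hno : ∀ l ∈ s, ∀ l' ∈ t, ¬ Associated l l' := by
      intro l hl l' hl' ha
      have h1 : l ∣ x := (hs1 l hl).2
      have h2 : l ∣ y := ha.dvd.trans (ht1 l' hl').2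
      exact (hs1 l hl).1.not_isUnit (hxy h1 h2)
    have hdis : Disjoint s t := by
      rw [Finset.disjoint_left]
      intro l hl hl'
      exact hno l hl l hl' (Associated.refl l)
    refine ⟨s ∪ t, ?_, ?_, ?_⟩
    · intro l hl
      rw [Finset.mem_union] at hl
      rcases hl with hl | hl
      · exact ⟨(hs1 l hl).1, (hs1 l hl).2.trans (dvd_mul_right x y)⟩
      · exact ⟨(ht1 l hl).1, (ht1 l hl).2.trans (dvd_mul_left y x)⟩
    · intro l hl l' hl' ha
      rw [Finset.mem_union] at hl hl'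
      rcases hl with hl | hl <;> rcases hl' with hl' | hl'
      · exact hs2 l hl l' hl' ha
      · exact (hno l hl l' hl' ha).elim
      · exact (hno l' hl' l hl ha.symm).elim
      · exact ht2 l hl l' hl' ha
    · rw [Finset.prod_union hdis]
      have hcop : IsCoprime (Ideal.span {x}) (Ideal.span {y}) := by
        rw [Ideal.isCoprime_span_singleton_iff]
        exact hxy.isCoprime
      have e1 : (GaussianInt ⧸ Ideal.span {x * y}) ≃+*
          (GaussianInt ⧸ Ideal.span {x}) × (GaussianInt ⧸ Ideal.span {y}) :=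
        (Ideal.quotEquivOfEq (by rw [Ideal.span_singleton_mul_span_singleton])).trans
          (Ideal.quotientMulEquivQuotientProd _ _ hcop)
      have e2 : (GaussianInt ⧸ Ideal.span {x * y})ˣ ≃
          (GaussianInt ⧸ Ideal.span {x})ˣ × (GaussianInt ⧸ Ideal.span {y})ˣ :=
        ((Units.mapEquiv e1.toMulEquiv).trans MulEquiv.prodUnits).toEquiv
      rw [Nat.card_congr e2, Nat.card_prod, Nat.cast_mul, hs3, ht3, Zsqrtd.norm_mul,
        Int.natAbs_mul, Nat.cast_mul]
      ring

end Phi1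

theorem units_count (n : GaussianInt) (hn : n ≠ 0) : ∃ s : Finset GaussianInt,
    (∀ l ∈ s, Prime l ∧ l ∣ n) ∧ (∀ l ∈ s, ∀ l' ∈ s, Associated l l' → l = l') ∧
    (Nat.card (GaussianInt ⧸ Ideal.span {n})ˣ : ℝ) =
      n.norm.natAbs * ∏ l ∈ s, (1 - 1 / (l.norm.natAbs : ℝ)) := Phi1.units_count' n hn

end GWA
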